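import Pool.Agent.Run7.h601.ZN.Asm
import Pool.Agent.Run7.h272.ZN.Fin
import Pool.Agent.Run7.h313.ZN.DEG
import Pool.Agent.Run7.h313.ZN.SIE
import Pool.Agent.Run7.h313.ZN.SPN
import Pool.Agent.Run7.h376.ZN.CNJ
import Pool.Agent.Run7.h376.ZN.DIV
import Pool.Agent.Run7.h468.ZN.BUR
import Pool.Agent.Run7.h468.ZN.COR
import Pool.Agent.Run7.h468.ZN.INN
import Pool.Agent.Run7.h468.ZN.VAL
import Pool.Agent.Run7.h610.ZN.A
import Pool.Agent.Run7.h629.ZN.NRM
import Pool.Agent.Run7.h722.ZN.KID
import Pool.Agent.Run7.h722.ZN.ORT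
import Pool.Agent.Run7.h722.ZN.REC
import Pool.Agent.Run7.h858.ZN.INT

/-!
# `Z(n) → ∞`

The least number `Z n` of irreducible complex characters of `S_n` whose zero sets together cover
`S_n` minus the identity tends to infinity.

Proof. If the product of the characters `χ_1, ..., χ_N` vanishes off the identity, then `n!` divides
`∏ χ_i(1)`. By Frobenius' formula every irreducible character has degree
`n! ∏ (l_j - l_i) / ∏ l_i!` for a vector `l` of beta numbers, so for a prime `p` the valuation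
`v_p(χ(1))` is at most `v_p(n!)` minus the number of hooks divisible by `p`. Hence for each prime
`p ≥ 2N` one of the `N` partitions has a `p`-core of size at least `n / (2N)`. A large sieve
inequality for the set of beta numbers shows that the sum over `p ∈ P` of the sizes of the
`p`-cores of one partition of `n` is at most `16 n + C(P)` for every finite set `P` of primes.
With `17 N` primes this is a contradiction for large `n`.
-/

set_option autoImplicit false

namespace Pool.Agent.Results.MP_6ade60_al.CoveringNumberTendsToInfinity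

open CategoryTheory

/-- `IsCover n L`: `L` is a list of irreducible complex characters (simple objects of
`FDRep ℂ (Equiv.Perm (Fin n))`) of the symmetric group `S_n` such that at every `σ ≠ 1` one of them
vanishes. -/
def IsCover (n : ℕ) (L : List (FDRep ℂ (Equiv.Perm (Fin n)))) : Prop :=
  (∀ V ∈ L, Simple V) ∧ ∀ σ : Equiv.Perm (Fin n), σ ≠ 1 → ∃ V ∈ L, V.character σ = 0

/-- `Z n`: the least length of a list with `IsCover n L` (`⊤` if there is none). -/
noncomputable def Z (n : ℕ) : ℕ∞ :=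
  sInf {m : ℕ∞ | ∃ L : List (FDRep ℂ (Equiv.Perm (Fin n))), IsCover n L ∧ m = L.length}

/-- `Z n` tends to infinity: for every `N` one has `Z n > N` for all large `n`. -/
theorem result :
    (∀ N : ℕ, ∃ M : ℕ, ∀ n : ℕ, M < n → (N : ℕ∞) < Z n) ∧
      Filter.Tendsto Z Filter.atTop (nhds ⊤) := by
  have h := Pool.Agent.Run7.h601.ZN.main_of Pool.Agent.Run7.h601.ZN.t_BUR
    Pool.Agent.Run7.h601.ZN.t_INN Pool.Agent.Run7.h722.ZN.t_REC Pool.Agent.Run7.h722.ZN.t_KID
    Pool.Agent.Run7.h722.ZN.t_ORT Pool.Agent.Run7.h629.ZN.t_NRM Run7.h313.ZN.Spn.t_SPN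
    Pool.Agent.Run7.h858.ZN.t_INT Run7.h313.ZN.t_DEG Run7.h376.ZN.t_CNJ Run7.h376.ZN.t_DIV
    Pool.Agent.Run7.h601.ZN.t_VAL Pool.Agent.Run7.h601.ZN.t_COR Pool.Agent.Run7.h610.ZN.t_PER
    Pool.Agent.Run7.h610.ZN.t_ORG Run7.h313.ZN.Sie.t_SIE Run7.h272.ZN.t_FIN
  have key : ∀ N : ℕ, ∃ M : ℕ, ∀ n : ℕ, M < n → (N : ℕ∞) < Z n := by
    intro N
    obtain ⟨M, hM⟩ := h N
    refine ⟨M, fun n hn => ?_⟩
    have h1 : ((N + 1 : ℕ) : ℕ∞) ≤ Z n := by
      refine le_sInf ?_
      rintro m ⟨L, hL, rfl⟩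
      have := hM n hn L hL.1 hL.2
      exact_mod_cast this
    refine lt_of_lt_of_le ?_ h1
    exact_mod_cast Nat.lt_succ_self N
  refine ⟨key, ?_⟩
  rw [ENat.tendsto_nhds_top_iff_natCast_lt]
  intro N
  obtain ⟨M, hM⟩ := key N
  exact Filter.eventually_atTop.2 ⟨M + 1, fun n hn => hM n hn⟩

end Pool.Agent.Results.MP_6ade60_al.CoveringNumberTendsToInfinity
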